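import Pool.Agent.helper30.QP.SpecK

/-!
# QP (MP_ebc808_nt), row ARI
-/

set_option autoImplicit false

open Polynomial Pool.Agent.helper7.IG

noncomputable section

namespace Pool.Agent.QP

theorem ARI_gcd (N l n : ℕ) (h : N.Coprime l) : Int.gcd ((l * n : ℕ) : ℤ) (N : ℤ) = Int.gcd (n : ℤ) (N : ℤ) := by
  rw [Int.gcd_natCast_natCast, Int.gcd_natCast_natCast]
  exact Nat.Coprime.gcd_mul_left_cancel n h.symm

theorem ARI : ARI_stmt := by
  classical
  intro F β N l n hF hl hNl hne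
  haveI : CharP kk 2 := inferInstance
  rw [PN_coeff, PN_coeff, ARI_gcd N l n hNl] at hne
  by_cases hg : Int.gcd (n : ℤ) (N : ℤ) = 1
  swap
  · rw [if_neg hg, if_neg hg, add_zero] at hne
    exact absurd rfl hne
  rw [if_pos hg, if_pos hg] at hne
  have hgn : Nat.Coprime n N := by
    rw [Int.gcd_natCast_natCast] at hg
    exact hg
  have hn0 : 0 < n := by
    rcases Nat.eq_zero_or_pos n with h | h
    · rw [h, mul_zero] at hne
      exact absurd (CharTwo.add_self_eq_zero _) hne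
    · exact h
  have hln : 0 < l * n := Nat.mul_pos hl.pos hn0
  rw [hF (l * n) hln, hF n hn0] at hne
  have hsub : n.divisors ⊆ (l * n).divisors := Nat.divisors_subset_of_dvd hln.ne' (Dvd.intro_left l rfl)
  rw [← Finset.sum_sdiff hsub, add_assoc, CharTwo.add_self_eq_zero, add_zero] at hne
  obtain ⟨m, hm, hβ⟩ := Finset.exists_ne_zero_of_sum_ne_zero hne
  rw [Finset.mem_sdiff, Nat.mem_divisors, Nat.mem_divisors] at hm
  obtain ⟨⟨hm1, _⟩, hm2⟩ := hm
  refine ⟨m, hβ, Nat.pos_of_dvd_of_pos hm1 hln, ?_, Nat.le_of_dvd hln hm1, ?_⟩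
  · by_contra hlm
    apply hm2
    have h1 : Nat.Coprime m l := ((Nat.Prime.coprime_iff_not_dvd hl).2 hlm).symm
    exact ⟨h1.dvd_of_dvd_mul_left hm1, hn0.ne'⟩
  · have h1 : Nat.Coprime (l * n) N := Nat.Coprime.mul_left hNl.symm hgn
    exact Nat.Coprime.coprime_dvd_left hm1 h1

end Pool.Agent.QP
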